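import Pool.Agent.LKU.Stmts
import Pool.Agent.Helper12_LKT.WLS

/-!
# Squad LKU, row WLO: walls of an end link and an inner link
(edit of Helper43_LKT/WLR.lean and Helper12_LKT/WLS.lean)
-/

set_option autoImplicit false

namespace Pool.Agent.LKU.H66

open Pool.Agent.LCK Pool.Agent.LKT Pool.Agent.LKU Pool.Agent.LKT.H12

/-- The geometric part, first end link. -/
theorem meet (x : Fin 8 → E3) (hx : x ∈ Om2) (m : Fin 7) (b b' : Fin 8) (hm : 2 ≤ (m : ℕ))
    (h1 : vv x m.castSucc = x b) (h2 : vv x m.succ = x b') (hb : 2 ≤ b) (hb6 : b ≤ 5)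
    (hb' : 2 ≤ b') (hb6' : b' ≤ 5) (c0 c1 cb cb' : ℝ) (p0 : 0 < c0) (p1 : 0 < c1) (pb : 0 < cb)
    (pb' : 0 < cb')
    (hc : ∀ i : Fin 4, c0 * hom x 0 i + c1 * hom x 1 i = cb * hom x b i + cb' * hom x b' i) :
    False := by
  obtain ⟨hdis, hn1, -⟩ := hx
  have hb7 : ¬ (b = 0 ∨ b = 7) := by
    rintro (h | h)
    · rw [h] at hb
      exact absurd hb (by decide)
    · rw [h] at hb6
      exact absurd hb6 (by decide)
  have hb7' : ¬ (b' = 0 ∨ b' = 7) := by
    rintro (h | h)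
    · rw [h] at hb'
      exact absurd hb' (by decide)
    · rw [h] at hb6'
      exact absurd hb6' (by decide)
  have e0 : c1 = cb + cb' := by
    have h := hc 0
    simp [hom, hb7, hb7'] at h
    exact h
  have e1 := hc 1
  have e2 := hc 2
  have e3 := hc 3
  simp [hom] at e1 e2 e3
  have hvec : c0 • x 0 + c1 • x 1 = cb • x b + cb' • x b' := by
    ext t
    fin_cases t
    · simpa using e1
    · simpa using e2
    · simpa using e3
  have hτ0 : 0 < c0 / c1 := div_pos p0 p1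
  have hq : x 1 + (c0 / c1) • x 0 = (cb / c1) • x b + (cb' / c1) • x b' := by
    have h : c1⁻¹ • (c0 • x 0 + c1 • x 1) = c1⁻¹ • (cb • x b + cb' • x b') := by rw [hvec]
    rw [smul_add, smul_add, smul_smul, smul_smul, smul_smul, smul_smul,
      inv_mul_cancel₀ p1.ne', one_smul] at h
    rw [div_eq_inv_mul, div_eq_inv_mul, div_eq_inv_mul, add_comm]
    exact h
  have hsum : cb / c1 + cb' / c1 = 1 := by
    rw [← add_div, ← e0, div_self p1.ne']
  have hd : (c0 / c1) • x 0 = (cb / c1) • (x b - x 1) + (cb' / c1) • (x b' - x 1) := by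
    have h : (cb / c1) • (x b - x 1) + (cb' / c1) • (x b' - x 1) =
        ((cb / c1) • x b + (cb' / c1) • x b') - (cb / c1 + cb' / c1) • x 1 := by
      rw [smul_sub, smul_sub, add_smul]
      abel
    rw [h, hsum, ← hq, one_smul]
    abel
  have hnorm : ‖(c0 / c1) • x 0‖ < ‖x 0‖ := by
    rw [hd]
    have h3 := hn1 b hb hb6
    have h4 := hn1 b' hb' hb6'
    have h5 : 0 < cb / c1 := div_pos pb p1
    have h6 : 0 < cb' / c1 := div_pos pb' p1
    calc ‖(cb / c1) • (x b - x 1) + (cb' / c1) • (x b' - x 1)‖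
        ≤ ‖(cb / c1) • (x b - x 1)‖ + ‖(cb' / c1) • (x b' - x 1)‖ := norm_add_le _ _
      _ = cb / c1 * ‖x b - x 1‖ + cb' / c1 * ‖x b' - x 1‖ := by
          rw [norm_smul, norm_smul, Real.norm_of_nonneg h5.le, Real.norm_of_nonneg h6.le]
      _ < cb / c1 * ‖x 0‖ + cb' / c1 * ‖x 0‖ :=
          add_lt_add (mul_lt_mul_of_pos_left h3 h5) (mul_lt_mul_of_pos_left h4 h6)
      _ = ‖x 0‖ := by rw [← add_mul, hsum, one_mul]
  have hτ1 : c0 / c1 < 1 := by
    rw [norm_smul, Real.norm_of_nonneg hτ0.le] at hnorm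
    by_contra hcon
    have h7 : 1 ≤ c0 / c1 := not_lt.mp hcon
    have h8 : 0 ≤ ‖x 0‖ := norm_nonneg _
    nlinarith
  have hdj := hdis 0 m (by simpa using hm)
  rw [h1, h2] at hdj
  have hv0 : vv x (Fin.castSucc 0) = x 1 + x 0 := rfl
  have hv1 : vv x (Fin.succ 0) = x 1 := rfl
  rw [hv0, hv1] at hdj
  have m1 : x 1 + (c0 / c1) • x 0 ∈ segment ℝ (x 1 + x 0) (x 1) := by
    refine ⟨c0 / c1, 1 - c0 / c1, hτ0.le, by linarith, by ring, ?_⟩
    rw [smul_add, sub_smul, one_smul]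
    abel
  have m2 : x 1 + (c0 / c1) • x 0 ∈ segment ℝ (x b) (x b') := by
    rw [hq]
    exact ⟨cb / c1, cb' / c1, (div_pos pb p1).le, (div_pos pb' p1).le, hsum, rfl⟩
  exact Set.disjoint_left.mp hdj m1 m2

theorem wlo (crm : CrmStmt) : WloStmt := by
  intro x hx j hj H h0
  have cr := crm.1
  rcases hj with rfl | rfl | rfl | rfl
  · -- 0134
    have g0 : D x 0 1 3 4 = 0 := by simpa [F2, tb2] using h0
    have g1 : 0 < D x 1 3 4 5 := by simpa [F2, tb2] using H 31 (by norm_num) (by norm_num)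
    have g2 : 0 < - D x 0 3 4 5 := by simpa [F2, tb2] using H 14 (by norm_num) (by norm_num)
    have g3 : 0 < - D x 0 1 4 5 := by simpa [F2, tb2] using H 6 (by norm_num) (by norm_num)
    have g4 : 0 < D x 0 1 3 5 := by simpa [F2, tb2] using H 3 (by norm_num) (by norm_num)
    refine meet x hx 3 3 4 (by decide) rfl rfl (by decide) (by decide) (by decide) (by decide)
      _ _ _ _ g1 g2 g3 g4 ?_
    intro i
    have h := cr (hom x 0) (hom x 1) (hom x 3) (hom x 4) (hom x 5) i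
    change D x 1 3 4 5 * _ - D x 0 3 4 5 * _ + D x 0 1 4 5 * _ - D x 0 1 3 5 * _ +
      D x 0 1 3 4 * _ = 0 at h
    rw [g0] at h
    linarith
  · -- 0145
    have g0 : D x 0 1 4 5 = 0 := by simpa [F2, tb2] using h0
    have g1 : 0 < D x 1 3 4 5 := by simpa [F2, tb2] using H 31 (by norm_num) (by norm_num)
    have g2 : 0 < - D x 0 3 4 5 := by simpa [F2, tb2] using H 14 (by norm_num) (by norm_num)
    have g3 : 0 < D x 0 1 3 5 := by simpa [F2, tb2] using H 3 (by norm_num) (by norm_num)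
    have g4 : 0 < - D x 0 1 3 4 := by simpa [F2, tb2] using H 2 (by norm_num) (by norm_num)
    refine meet x hx 4 4 5 (by decide) rfl rfl (by decide) (by decide) (by decide) (by decide)
      _ _ _ _ g1 g2 g3 g4 ?_
    intro i
    have h := cr (hom x 0) (hom x 1) (hom x 3) (hom x 4) (hom x 5) i
    change D x 1 3 4 5 * _ - D x 0 3 4 5 * _ + D x 0 1 4 5 * _ - D x 0 1 3 5 * _ +
      D x 0 1 3 4 * _ = 0 at h
    rw [g0] at h
    linarith
  · -- 1267
    obtain ⟨hdis, -, hn7⟩ := hx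
    have g0 : D x 1 2 6 7 = 0 := by simpa [F2, tb2] using h0
    have g1 : 0 < D x 2 4 6 7 := by simpa [F2, tb2] using H 46 (by norm_num) (by norm_num)
    have g2 : 0 < - D x 1 4 6 7 := by simpa [F2, tb2] using H 38 (by norm_num) (by norm_num)
    have g4 : 0 < - D x 1 2 4 6 := by simpa [F2, tb2] using H 26 (by norm_num) (by norm_num)
    refine wlsFin x 1 2 (by decide) (by decide) (hdis 1 6 (by decide))
      (hn7 1 (by decide) (by decide)) (hn7 2 (by decide) (by decide))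
      (D x 2 4 6 7) (-D x 1 4 6 7) (D x 1 2 4 7) (-D x 1 2 4 6) g1 g2 g4 ?_
    intro i
    have h := cr (hom x 1) (hom x 2) (hom x 4) (hom x 6) (hom x 7) i
    change D x 2 4 6 7 * hom x 1 i - D x 1 4 6 7 * hom x 2 i + D x 1 2 6 7 * hom x 4 i -
      D x 1 2 4 7 * hom x 6 i + D x 1 2 4 6 * hom x 7 i = 0 at h
    linear_combination h - hom x 4 i * g0
  · -- 3467
    obtain ⟨hdis, -, hn7⟩ := hx
    have g0 : D x 3 4 6 7 = 0 := by simpa [F2, tb2] using h0
    have g1 : 0 < - D x 1 4 6 7 := by simpa [F2, tb2] using H 38 (by norm_num) (by norm_num)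
    have g2 : 0 < D x 1 3 6 7 := by simpa [F2, tb2] using H 35 (by norm_num) (by norm_num)
    have g4 : 0 < - D x 1 3 4 6 := by simpa [F2, tb2] using H 32 (by norm_num) (by norm_num)
    refine wlsFin x 3 4 (by decide) (by decide) (hdis 3 6 (by decide))
      (hn7 3 (by decide) (by decide)) (hn7 4 (by decide) (by decide))
      (-D x 1 4 6 7) (D x 1 3 6 7) (D x 1 3 4 7) (-D x 1 3 4 6) g1 g2 g4 ?_
    intro i
    have h := cr (hom x 1) (hom x 3) (hom x 4) (hom x 6) (hom x 7) i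
    change D x 3 4 6 7 * hom x 1 i - D x 1 4 6 7 * hom x 3 i + D x 1 3 6 7 * hom x 4 i -
      D x 1 3 4 7 * hom x 6 i + D x 1 3 4 6 * hom x 7 i = 0 at h
    linear_combination h - hom x 1 i * g0

end Pool.Agent.LKU.H66
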